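import Mathlib
namespace Pool.Agent.H.MP_0c4bbf_an
open Filter Topology Complex Metric Finset
open scoped InnerProductSpace

lemma inv_le {ω : ℂ} {N : ℕ} (hω : IsPrimitiveRoot ω N) (h1 : ‖ω‖ = 1) {C : ℝ} (n : ℕ) :
    ∀ (a : ℕ) (φ : ℂ → ℂ), a + n ≤ N → (a ≠ 0 ∨ φ 0 = 0) → DifferentiableOn ℂ φ (ball 0 1) →
      (∀ z ∈ ball 0 1, ‖φ z‖ ≤ C) → (∀ z ≠ 0, ω ^ a * φ (ω * z) = φ z) →
      ∀ z ∈ ball 0 1, ‖φ z‖ ≤ C * ‖z‖ ^ n := by
  induction n with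
  | zero => intro a φ _ _ _ h _; simpa using h
  | succ n ih =>
    intro a φ ha h0 hd hb hi z hz
    have hm := ball_mem_nhds (0 : ℂ) one_pos
    have hc := (hd.differentiableAt hm).continuousAt
    have ω0 : ω ≠ 0 := norm_pos_iff.1 (by simp [h1])
    have h0 : φ 0 = 0 := h0.elim (fun h => by
      have := tendsto_nhds_unique (((hc.tendsto.comp (Continuous.tendsto' (f := fun z : ℂ => ω * z)
        (by fun_prop) 0 0 (by simp))).const_mul (ω ^ a)).mono_left nhdsWithin_le_nhds |>.congr'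
          (eventually_nhdsWithin_of_forall (s := {0}ᶜ) hi)) (hc.tendsto.mono_left nhdsWithin_le_nhds)
      exact by_contra fun h' => hω.pow_ne_one_of_pos_of_lt h (by omega)
        (mul_right_cancel₀ h' (this.trans (one_mul _).symm))) id
    have := ih (a + 1) (dslope φ 0) (by omega) (.inl (by omega)) ((differentiableOn_dslope hm).2 hd)
      (fun z hz => by
        simpa using norm_dslope_le_div_of_mapsTo_ball hd (R₂ := C)
          (fun w hw => by simpa [h0] using hb w hw) hz)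
      (fun z hz => by
        rw [dslope_of_ne _ hz, dslope_of_ne _ (mul_ne_zero ω0 hz), slope_def_field, slope_def_field,
          ← hi z hz, h0]
        field_simp; ring) z hz
    have h2 := sub_smul_dslope φ 0 z
    rw [h0, sub_zero, sub_zero] at h2
    rw [← h2, norm_smul, pow_succ', mul_left_comm]
    gcongr

lemma child {f : ℂ → ℂ} (hd : DifferentiableOn ℂ f (ball 0 1))
    (h0 : ∀ z ∈ ball 0 1, f z ≠ 0 ∧ ‖f z‖ ≤ 1) {s : ℝ} (hs : 0 ≤ s) {N : ℕ} (hN : N ≠ 0) {r : ℝ}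
    (r0 : 0 ≤ r) (r1 : r < 1) : ∃ ω : ℂ, ω ^ N = 1 ∧ ‖f 0‖ ^ s - 2 * r ^ N ≤ ‖f (ω * r)‖ ^ s := by
  obtain ⟨l, l1, l2⟩ := InnerProductSpace.HarmonicOnNhd.exists_analyticOnNhd_ball_re_eq
    (f := fun z => Real.log ‖f z‖) (z := 0) (R := 1) fun z hz =>
      (hd.analyticOnNhd isOpen_ball z hz).harmonicAt_log_norm (h0 z hz).1
  have hω := isPrimitiveRoot_exp N hN
  have h1 := hω.norm'_eq_one hN
  set ω := cexp (2 * Real.pi * I / N)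
  have h2 : ∀ z ∈ ball 0 1, ‖cexp (s * l z)‖ = ‖f z‖ ^ s := fun z hz => by
    rw [Complex.norm_exp, re_ofReal_mul, show (l z).re = _ from l2 hz, mul_comm,
      Real.rpow_def_of_pos (norm_pos_iff.2 (h0 z hz).1)]
  have h3 : ∀ j, ∀ z ∈ ball (0 : ℂ) 1, ω ^ j * z ∈ ball (0 : ℂ) 1 := fun j z hz => by
    simpa [h1] using hz
  have h4 : ∀ z ∈ ball 0 1, ‖cexp (s * l z)‖ ≤ 1 := fun z hz =>
    (h2 z hz).trans_le (Real.rpow_le_one (norm_nonneg _) (h0 z hz).2 hs)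
  have hr : (r : ℂ) ∈ ball (0 : ℂ) 1 := by simpa [abs_of_nonneg r0]
  have h5 := inv_le hω h1 (C := N • 2) N 0 (fun z => ∑ j ∈ range N, (cexp (s * l (ω ^ j * z)) -
    cexp (s * l 0))) (by simp) (.inr (by simp)) (.fun_sum fun j _ => .sub_const (.cexp (.const_mul
      (l1.differentiableOn.comp (by fun_prop) (h3 j)) _)) _)
    (fun z hz => (norm_sum_le_of_le _ fun j _ => (norm_sub_le_of_le (h4 _ (h3 j z hz))
      (h4 0 (by simp)))).trans_eq (by simp; ring))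
    (fun z _ => by
      have := sum_range_succ_sub_sum (f := fun j => cexp (s * l (ω ^ j * z))) (n := N)
      simp only [sum_range_succ', hω.pow_eq_one, pow_zero, pow_succ, mul_assoc] at this
      simp only [pow_zero, one_mul, sum_sub_distrib] at this ⊢
      linear_combination this) r hr
  obtain ⟨j, -, h⟩ := exists_le_of_sum_le (s := range N) (by simpa)
    (f := fun _ => ‖f 0‖ ^ s - 2 * r ^ N) (g := fun j => ‖cexp (s * l (ω ^ j * r))‖) (by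
      rw [sum_sub_distrib, sum_const, norm_sub_rev] at h5
      have := (norm_sub_norm_le _ _).trans h5
      have := norm_sum_le (range N) fun j => cexp (s * l (ω ^ j * r))
      simp only [h2 0 (by simp), norm_real, Real.norm_of_nonneg r0, sum_const, card_range,
        nsmul_eq_mul, norm_mul, Complex.norm_natCast] at *
      linarith)
  exact ⟨ω ^ j, by rw [← pow_mul, mul_comm, pow_mul, hω.pow_eq_one, one_pow],
    h.trans_eq (h2 _ (h3 j r hr))⟩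

variable {E : Type} [NormedAddCommGroup E] [InnerProductSpace ℂ E]

lemma nsq {p v : E} (hv : ⟪p, v⟫_ℂ = 0) (τ : ℂ) :
    ‖p + τ • v‖ ^ 2 = ‖p‖ ^ 2 + ‖τ‖ ^ 2 * ‖v‖ ^ 2 := by
  simpa [sq, norm_smul, mul_mul_mul_comm] using norm_add_sq_eq_norm_sq_add_norm_sq_of_inner_eq_zero
    (𝕜 := ℂ) p (τ • v) (by simp [inner_smul_right, hv])

lemma key {p v x : E} (hv : ⟪p, v⟫_ℂ = 0) (hv' : ‖v‖ ^ 2 = 1 - ‖p‖ ^ 2) (hx : ‖x‖ ≤ 1) :
    ‖⟪v, x⟫_ℂ‖ ≤ ‖1 - ⟪p, x⟫_ℂ‖ ∧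
      (‖⟪v, x⟫_ℂ‖ < ‖1 - ⟪p, x⟫_ℂ‖ ∨ ‖x‖ = 1 ∧ ⟪p, x⟫_ℂ = (‖p‖ ^ 2 : ℝ)) := by
  obtain ⟨τ, h1, h2⟩ := exists_norm_mul_eq_self ⟪v, x⟫_ℂ
  have h3 := nsq hv τ
  have h4 := norm_sub_sq (𝕜 := ℂ) (p + τ • v) x
  have h5 : (starRingEnd ℂ) τ * ⟪v, x⟫_ℂ = ‖⟪v, x⟫_ℂ‖ := by
    rw [← h2, ← mul_assoc, conj_mul', h1]; simp [h1]
  have h6 := re_le_norm (1 - ⟪p, x⟫_ℂ)
  rw [h1, hv'] at h3
  rw [h3, inner_add_left, inner_smul_left, h5] at h4
  simp only [RCLike.re_to_complex, add_re, ofReal_re, sub_re, one_re] at h4 h6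
  have h7 := pow_le_one₀ (norm_nonneg x) hx (n := 2)
  refine ⟨by nlinarith [sq_nonneg ‖p + τ • v - x‖], or_iff_not_imp_left.2 fun h => ?_⟩
  obtain rfl : p + τ • v = x := sub_eq_zero.1 (norm_eq_zero.1 (pow_eq_zero_iff two_ne_zero |>.1
    (le_antisymm (by linarith [not_lt.1 h]) (sq_nonneg _))))
  exact ⟨(pow_eq_one_iff_of_nonneg (norm_nonneg _) two_ne_zero).1 (by linarith), by
    rw [inner_add_right, inner_smul_right, hv, inner_self_eq_norm_sq_to_K]; simp⟩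

def Z (f : E → ℂ) : Prop :=
  DifferentiableOn ℂ f (ball 0 1) ∧ ∀ z ∈ ball 0 1, f z ≠ 0 ∧ ‖f z‖ ≤ 1

def Ch (η : ℝ) (p : E) (P : Finset E) : Prop :=
  ∀ f, Z f → ∀ s : ℝ, 0 ≤ s → ∃ c ∈ P, ‖f p‖ ^ s - η ≤ ‖f c‖ ^ s

def Gd (h : E → ℝ) (γ : ℝ) (P : Finset E) (G : E → ℂ) : Prop :=
  (∀ c ∈ P, ‖c‖ < 1 ∧ ∀ y, ‖y‖ ≤ 1 → ⟪c, y⟫_ℂ = (‖c‖ ^ 2 : ℝ) → G y = 0) ∧
    ∀ x, ‖x‖ ≤ 1 → DifferentiableAt ℂ G x ∧ |h x| * ‖G x - 1‖ ≤ γ

variable [ProperSpace E]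

lemma node {p v : E} (hp : ‖p‖ < 1) (hv : ⟪p, v⟫_ℂ = 0) (hv' : ‖v‖ ^ 2 = 1 - ‖p‖ ^ 2) {h : E → ℝ}
    (hc : ContinuousOn h (closedBall 0 1)) (h0 : ∀ y, ‖y‖ = 1 → ⟪p, y⟫_ℂ = (‖p‖ ^ 2 : ℝ) → h y = 0)
    {γ η : ℝ} (hγ : 0 < γ) (hη : 0 < η) : ∃ P G, Gd h γ P G ∧ Ch η p P := by
  have p0 := norm_nonneg p
  have h1 : ∀ x : E, ‖x‖ ≤ 1 → 1 - ‖p‖ ≤ ‖1 - ⟪p, x⟫_ℂ‖ := fun x hx => by
    have := (norm_inner_le_norm (𝕜 := ℂ) p x).trans (mul_le_of_le_one_right p0 hx)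
    have := norm_sub_norm_le 1 ⟪p, x⟫_ℂ
    rw [norm_one] at this; linarith
  have h2 : ∀ x : E, ‖x‖ ≤ 1 → 0 < ‖1 - ⟪p, x⟫_ℂ‖ := fun x hx => (sub_pos.2 hp).trans_le (h1 x hx)
  have h3 := Antitone.tendstoUniformlyOn_of_forall_tendsto (isCompact_closedBall (0 : E) 1)
    (F := fun (N : ℕ) x => |h x| * (‖⟪v, x⟫_ℂ‖ / ‖1 - ⟪p, x⟫_ℂ‖) ^ N) (f := fun _ => 0)
    (fun N => hc.abs.mul (.pow (.div (by fun_prop) (by fun_prop) fun x hx =>
      (h2 x (mem_closedBall_zero_iff.1 hx)).ne') _))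
    (fun x hx m n hmn => mul_le_mul_of_nonneg_left (pow_le_pow_of_le_one (by positivity)
      (div_le_one_of_le₀ (key hv hv' (mem_closedBall_zero_iff.1 hx)).1 (norm_nonneg _)) hmn)
      (abs_nonneg _)) continuousOn_const fun x hx => by
        have hx := mem_closedBall_zero_iff.1 hx
        rcases (key hv hv' hx).2 with e | e
        · simpa using (tendsto_pow_atTop_nhds_zero_of_lt_one (by positivity)
            ((div_lt_one (h2 x hx)).2 e)).const_mul |h x|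
        · simp [h0 x e.1 e.2]
  have hΛ : 0 < 2 / η := by positivity
  set Λ := 2 / η with hΛ'
  obtain ⟨N, h4, h5⟩ := ((tendstoUniformlyOn_iff.1 h3 (γ / Real.exp (8 * Λ)) (by positivity)).and
    (tendsto_natCast_atTop_atTop.eventually_ge_atTop (8 * Λ))).exists
  have N0 : (0 : ℝ) < N := by linarith
  have N1 : N ≠ 0 := by exact_mod_cast N0.ne'
  have δ0 : 0 < Λ / N := by positivity
  have δ1 : Λ / N ≤ 1 / 8 := by rw [div_le_iff₀ N0]; linarith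
  have δ2 : (1 - Λ / N) ^ N ≤ η / 2 := (Real.one_sub_div_pow_le_exp_neg (by linarith)).trans (by
    rw [Real.exp_neg, ← inv_div 2 η]
    exact inv_anti₀ hΛ (by linarith [Real.add_one_le_exp Λ]))
  have δ3 : (1 + 8 * (Λ / N)) ^ N ≤ Real.exp (8 * Λ) := (pow_le_pow_left₀ (by positivity)
    ((add_comm _ _).trans_le (Real.add_one_le_exp _)) N).trans_eq (by
      rw [← Real.exp_nat_mul]; congr 1; field_simp)
  generalize Λ / N = δ at *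
  set r := 1 - δ with hr
  have d0 : 0 < 1 - ‖p‖ ^ 2 := by nlinarith
  have h6 : ∀ x : E, ‖x‖ ≤ 1 → ‖1 - ⟪p, x⟫_ℂ‖ ≤ (1 + 8 * δ) *
      ‖(‖p‖ ^ 2 + r ^ 2 * (1 - ‖p‖ ^ 2) : ℝ) - ⟪p, x⟫_ℂ‖ := fun x hx => by
    have e1 := norm_sub_norm_le (1 - ⟪p, x⟫_ℂ) (((1 - r ^ 2) * (1 - ‖p‖ ^ 2) : ℝ) : ℂ)
    rw [norm_real, Real.norm_of_nonneg (mul_nonneg (by nlinarith) d0.le), show 1 - ⟪p, x⟫_ℂ - _ =
      (‖p‖ ^ 2 + r ^ 2 * (1 - ‖p‖ ^ 2) : ℝ) - ⟪p, x⟫_ℂ by push_cast; ring] at e1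
    have e2 : (1 - r ^ 2) * (1 - ‖p‖ ^ 2) ≤ 2 * δ * (2 * ‖1 - ⟪p, x⟫_ℂ‖) :=
      mul_le_mul (by nlinarith) (by nlinarith [h1 x hx]) d0.le (by positivity)
    have e3 : 1 ≤ (1 + 8 * δ) * (1 - 4 * δ) := by nlinarith
    nlinarith [h2 x hx]
  have h7 : ∀ ω : ℂ, ω ^ N = 1 → ‖ω‖ = 1 := fun ω h => norm_eq_one_of_pow_eq_one h N1
  have h8 : ∀ ω : ℂ, ω ^ N = 1 → ‖p + (ω * r) • v‖ ^ 2 = ‖p‖ ^ 2 + r ^ 2 * (1 - ‖p‖ ^ 2) :=
    fun ω h => by simp [nsq hv, h7 ω h, hv']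
  have h9 : ∀ x : E, ‖x‖ ≤ 1 → (‖p‖ ^ 2 + r ^ 2 * (1 - ‖p‖ ^ 2) : ℝ) - ⟪p, x⟫_ℂ ≠ 0 :=
    fun x hx h => by have := h6 x hx; rw [h, norm_zero] at this; linarith [h2 x hx]
  classical
  refine ⟨(Polynomial.nthRootsFinset N (1 : ℂ)).image fun ω : ℂ => p + (ω * r) • v,
    fun x => 1 - (r * ⟪v, x⟫_ℂ / ((‖p‖ ^ 2 + r ^ 2 * (1 - ‖p‖ ^ 2) : ℝ) - ⟪p, x⟫_ℂ)) ^ N,
    ⟨fun c hc => ?_, fun x hx => ⟨?_, ?_⟩⟩, fun f hf s hs => ?_⟩
  · obtain ⟨ω, hω, rfl⟩ := mem_image.1 hc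
    rw [Polynomial.mem_nthRootsFinset N1.bot_lt] at hω
    refine ⟨(sq_lt_one_iff₀ (norm_nonneg _)).1 (by rw [h8 ω hω]; nlinarith [mul_pos δ0 d0]),
      fun y hy e => ?_⟩
    rw [h8 ω hω, inner_add_left, inner_smul_left, ← eq_sub_iff_add_eq', map_mul, conj_ofReal] at e
    have e1 := h9 y hy
    have e2 := conj_mul' ω
    rw [h7 ω hω] at e2
    rw [sub_eq_zero, ← hω]
    congr 1
    rw [eq_div_iff e1, ← e]
    push_cast at e2
    linear_combination r * ⟪v, y⟫_ℂ * e2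
  · have := h9 x hx
    have : ∀ u : E, DifferentiableAt ℂ (fun x => ⟪u, x⟫_ℂ) x := fun u => (innerSL ℂ u).differentiableAt
    fun_prop (disch := assumption)
  · have e1 := h4 x (mem_closedBall_zero_iff.2 hx)
    rw [dist_zero_left, Real.norm_of_nonneg (by positivity), lt_div_iff₀ (Real.exp_pos _),
      mul_assoc] at e1
    rw [sub_sub_cancel_left, norm_neg, norm_pow]
    refine le_trans (mul_le_mul_of_nonneg_left ((pow_le_pow_left₀ (norm_nonneg _) ?_ N).trans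
      ((mul_pow _ _ _).trans_le (mul_le_mul_of_nonneg_left δ3 (by positivity)))) (abs_nonneg _)) e1.le
    rw [norm_div, norm_mul, norm_real, Real.norm_of_nonneg (by linarith), div_mul_eq_mul_div,
      div_le_div_iff₀ (norm_pos_iff.2 (h9 x hx)) (h2 x hx), mul_assoc, mul_assoc]
    exact (mul_le_of_le_one_left (by positivity) (by linarith)).trans
      (mul_le_mul_of_nonneg_left (h6 x hx) (norm_nonneg _))
  · have e1 : ∀ z ∈ ball (0 : ℂ) 1, p + z • v ∈ ball (0 : E) 1 := fun z hz => by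
      rw [mem_ball_zero_iff, ← sq_lt_one_iff₀ (norm_nonneg _)] at *
      rw [nsq hv, hv']; nlinarith
    obtain ⟨ω, e2, e3⟩ := child (f := fun z => f (p + z • v)) (hf.1.comp (by fun_prop) e1)
      (fun z hz => hf.2 _ (e1 z hz)) hs N1 (r := r) (by linarith) (by linarith)
    rw [zero_smul, add_zero] at e3
    exact ⟨p + (ω * r) • v, mem_image_of_mem _ ((Polynomial.mem_nthRootsFinset N1.bot_lt _).2 e2),
      by linarith⟩

end Pool.Agent.H.MP_0c4bbf_an
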