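import Pool.Agent.H.MP_0c4bbf_an.A
namespace Pool.Agent.H.MP_0c4bbf_an
open Filter Topology Complex Metric Finset
open scoped InnerProductSpace

variable {E : Type} [NormedAddCommGroup E] [InnerProductSpace ℂ E]

lemma diff_tsum {D : ℕ → E → ℂ} {u : ℕ → ℝ} (hu : Summable u)
    (hd : ∀ j, DifferentiableOn ℂ (D j) (ball 0 1)) (hb : ∀ j, ∀ x ∈ ball 0 1, ‖D j x‖ ≤ u j) :
    DifferentiableOn ℂ (fun x => ∑' j, D j x) (ball 0 1) := fun z hz => by
  have h0 : 0 < (1 - ‖z‖) / 2 := half_pos (sub_pos.2 (mem_ball_zero_iff.1 hz))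
  have h1 : ∀ x ∈ ball z ((1 - ‖z‖) / 2), ball x ((1 - ‖z‖) / 2) ⊆ ball 0 1 := fun x hx =>
    ball_subset_ball' (by
      have := dist_triangle x z 0
      rw [mem_ball] at hx; rw [dist_zero_right z] at this; linarith)
  exact (hasFDerivAt_tsum_of_isPreconnected (f' := fun j x => fderiv ℂ (D j) x)
    ((hu.add hu).div_const _) isOpen_ball (convex_ball z _).isPreconnected
    (fun j x hx => ((hd j).differentiableAt (isOpen_ball.mem_nhds
      (h1 x hx (mem_ball_self h0)))).hasFDerivAt)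
    (fun j x hx => norm_fderiv_le_div_of_mapsTo_ball ((hd j).mono (h1 x hx)) (fun y hy =>
      mem_closedBall_iff_norm.2 (norm_sub_le_of_le (hb j y (h1 x hx hy))
        (hb j x (h1 x hx (mem_ball_self h0))))) h0) (mem_ball_self h0)
    (.of_norm_bounded hu fun j => hb j z hz) (mem_ball_self h0)).differentiableAt.differentiableWithinAt

def Van (P : Finset E) (h : E → ℝ) : Prop := ContinuousOn h (closedBall 0 1) ∧
  ∀ p ∈ P, ‖p‖ < 1 ∧ ∀ y, ‖y‖ = 1 → ⟪p, y⟫_ℂ = (‖p‖ ^ 2 : ℝ) → h y = 0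

lemma Gd.cont {h : E → ℝ} {γ : ℝ} {P : Finset E} {G : E → ℂ} (H : Gd h γ P G) :
    ContinuousOn G (closedBall 0 1) := fun x hx =>
  (H.2 x (mem_closedBall_zero_iff.1 hx)).1.continuousAt.continuousWithinAt

variable [FiniteDimensional ℂ E] (hE : 1 < Module.finrank ℂ E)
include hE

lemma perp {p : E} (hp : ‖p‖ < 1) : ∃ v, ⟪p, v⟫_ℂ = 0 ∧ ‖v‖ ^ 2 = 1 - ‖p‖ ^ 2 := by
  obtain ⟨w, h1, h2⟩ := Submodule.exists_mem_ne_zero_of_ne_bot (LinearMap.ker_ne_bot_of_finrank_lt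
    (f := innerₛₗ ℂ p) (by simpa))
  have := norm_pos_iff.2 h2
  refine ⟨((√(1 - ‖p‖ ^ 2) / ‖w‖ : ℝ) : ℂ) • w, by
    rw [inner_smul_right, show ⟪p, w⟫_ℂ = 0 from h1, mul_zero], ?_⟩
  rw [norm_smul, norm_real, Real.norm_of_nonneg (by positivity), div_mul_cancel₀ _ this.ne',
    Real.sq_sqrt (by nlinarith [norm_nonneg p])]

lemma step {η : ℝ} (hη : 0 < η) (P : Finset E) : ∀ {h : E → ℝ} {γ : ℝ}, Van P h → 0 < γ →
    ∃ P' G, Gd h γ P' G ∧ ∀ p ∈ P, Ch η p P' := by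
  have := FiniteDimensional.proper ℂ E
  classical
  induction P using Finset.induction_on with
  | empty => exact fun _ hγ => ⟨∅, 1, ⟨by simp, fun x _ => ⟨by fun_prop, by simp [hγ.le]⟩⟩, by simp⟩
  | insert p P _ ih =>
    intro h γ hv hγ
    obtain ⟨P1, G1, h1, h2⟩ := ih ⟨hv.1, fun q hq => hv.2 q (mem_insert_of_mem hq)⟩ (half_pos hγ)
    have hp := hv.2 p (mem_insert_self _ _)
    obtain ⟨v, v1, v2⟩ := perp hE hp.1
    obtain ⟨P2, G2, h3, h4⟩ := node hp.1 v1 v2 (h := fun x => h x * ‖G1 x‖)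
      (hv.1.mul h1.cont.norm) (fun y a b => by simp [hp.2 y a b]) (half_pos hγ) hη
    refine ⟨P1 ∪ P2, fun x => G1 x * G2 x, ⟨fun c hc => (mem_union.1 hc).elim
      (fun e => ⟨(h1.1 c e).1, fun y a b => by simp [(h1.1 c e).2 y a b]⟩)
      fun e => ⟨(h3.1 c e).1, fun y a b => by simp [(h3.1 c e).2 y a b]⟩, fun x hx =>
        ⟨(h1.2 x hx).1.mul (h3.2 x hx).1, ?_⟩⟩, fun q hq f hf s hs => (mem_insert.1 hq).elim
      (fun e => (h4 f hf s hs).imp fun c hc => ⟨mem_union_right _ hc.1, e ▸ hc.2⟩)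
      fun e => (h2 q e f hf s hs).imp fun c hc => ⟨mem_union_left _ hc.1, hc.2⟩⟩
    have e1 := (h3.2 x hx).2
    have e2 := norm_add_le (G1 x * (G2 x - 1)) (G1 x - 1)
    rw [abs_mul, abs_norm, mul_assoc, ← norm_mul] at e1
    rw [show G1 x * G2 x - 1 = G1 x * (G2 x - 1) + (G1 x - 1) by ring]
    nlinarith [(h1.2 x hx).2, abs_nonneg (h x)]

noncomputable def γ (k : ℕ) : ℝ := (1 / 2) ^ k / 8

noncomputable def W (k : ℕ) (P : Finset E) (x : E) : ℝ :=
  ∏ p ∈ P, #P * ‖⟪p, x⟫_ℂ - (‖p‖ ^ 2 : ℝ)‖ / γ k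

lemma seq : ∃ (P : ℕ → Finset E) (h : ℕ → E → ℝ) (F : ℕ → E → ℂ), 0 ∈ P 0 ∧ ∀ k, (∀ x, 0 ≤ h k x) ∧
    (∀ x, h (k + 1) x = (h k x + 1) * ‖F k x‖) ∧ (∀ p ∈ P k, Ch (γ k) p (P (k + 1))) ∧
    Gd (fun x => h k x + (1 - ‖x‖) + W k (P k) x) (γ k) (P (k + 1)) (F k) := by
  have : ∀ (k : ℕ) (s : {q : Finset E × (E → ℝ) // Van q.1 q.2 ∧ ∀ x, 0 ≤ q.2 x}),
      ∃ (t : {q : Finset E × (E → ℝ) // Van q.1 q.2 ∧ ∀ x, 0 ≤ q.2 x}) (F : E → ℂ),
      (∀ x, t.1.2 x = (s.1.2 x + 1) * ‖F x‖) ∧ (∀ p ∈ s.1.1, Ch (γ k) p t.1.1) ∧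
      Gd (fun x => s.1.2 x + (1 - ‖x‖) + W k s.1.1 x) (γ k) t.1.1 F := fun k ⟨⟨P, h⟩, h1, h2⟩ => by
    have : 0 < γ k := by unfold γ; positivity
    obtain ⟨P', G, h3, h4⟩ := step hE this P (h := fun x => h x + (1 - ‖x‖) + W k P x)
      ⟨(h1.1.add (by fun_prop)).add (by unfold W; fun_prop), fun p hp => ⟨(h1.2 p hp).1,
        fun y a b => by
          simp only [show h y = 0 from (h1.2 p hp).2 y a b, a, W]
          rw [prod_eq_zero hp (by simp [b])]; simp⟩⟩ this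
    exact ⟨⟨⟨P', fun x => (h x + 1) * ‖G x‖⟩, ⟨(h1.1.add continuousOn_const).mul h3.cont.norm,
      fun c hc => ⟨(h3.1 c hc).1, fun y a b => by simp [(h3.1 c hc).2 y a.le b]⟩⟩,
      fun x => by have := h2 x; positivity⟩, G, fun _ => rfl, h4, h3⟩
  choose t F H using this
  let s : ℕ → _ := Nat.rec ⟨⟨{0}, 0⟩, ⟨continuousOn_const, by simp⟩, fun _ => le_rfl⟩ t
  exact ⟨fun k => (s k).1.1, fun k => (s k).1.2, fun k => F k (s k), mem_singleton_self _,
    fun k => ⟨(s k).2.2, H k (s k)⟩⟩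

theorem main : ∃ K : Set E, IsCompact K ∧ K ⊆ sphere 0 1 ∧
    (¬ ∃ f : E → ℂ, ContinuousOn f (closedBall 0 1) ∧ DifferentiableOn ℂ f (ball 0 1) ∧
      {z | z ∈ closedBall 0 1 ∧ f z = 0} = K) ∧
    (∀ z ∈ closedBall 0 1, z ∉ K → ∃ f : E → ℂ, ContinuousOn f (closedBall 0 1) ∧
      DifferentiableOn ℂ f (ball 0 1) ∧ (∀ w ∈ K, f w = 0) ∧ f z ≠ 0) ∧
    ∀ ε > 0, ∃ P : Finset E, (∀ p ∈ P, 1 - ε ≤ ‖p‖ ∧ ‖p‖ ≤ 1) ∧
      ∀ x ∈ K, ∃ p ∈ P, #P * ‖⟪p, x⟫_ℂ - (‖p‖ ^ 2 : ℝ)‖ ≤ ε := by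
  have := FiniteDimensional.proper ℂ E
  obtain ⟨P, h, F, p0, H⟩ := seq hE
  have g0 : ∀ k, 0 < γ k := fun k => by unfold γ; positivity
  have g1 : ∀ k, γ (k + 1) = γ k / 2 := fun k => by unfold γ; ring
  have g2 : ∀ k, γ k ≤ 1 / 8 := fun k => by
    unfold γ; gcongr; exact pow_le_one₀ (by norm_num) (by norm_num)
  have g3 : HasSum γ (1 / 4) := (show (2 : ℝ) / 8 = 1 / 4 by norm_num) ▸ hasSum_geometric_two.div_const 8
  have g4 := g3.summable.tendsto_atTop_zero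
  have w0 : ∀ k x, 0 ≤ W k (P k) x := fun k x => prod_nonneg fun _ _ => by have := g0 k; positivity
  have h1 : ∀ k x, ‖x‖ ≤ 1 → (h k x + (1 - ‖x‖) + W k (P k) x) * ‖F k x - 1‖ ≤ γ k := fun k x hx =>
    (mul_le_mul_of_nonneg_right (le_abs_self _) (norm_nonneg _)).trans (((H k).2.2.2.2 x hx).2)
  set A := fun k => {x ∈ closedBall 0 1 | 1 / 2 ≤ ‖F k x - 1‖}
  have a1 : ∀ k, IsClosed (A k) := fun k => isClosed_closedBall.isClosed_le continuousOn_const
    ((H k).2.2.2.cont.sub continuousOn_const).norm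
  have a2 : ∀ k, ∀ x ∈ A k, h k x ≤ 2 * γ k ∧ 1 - ‖x‖ ≤ 2 * γ k ∧ W k (P k) x ≤ 2 * γ k :=
    fun k x hx => by
      have e := mem_closedBall_zero_iff.1 hx.1
      have := (mul_le_mul_of_nonneg_left hx.2 (by linarith [(H k).1 x, w0 k x])).trans (h1 k x e)
      refine ⟨?_, ?_, ?_⟩ <;> linarith [(H k).1 x, w0 k x]
  have a3 : ∀ k x, ‖F k x‖ ≤ h (k + 1) x := fun k x => by
    rw [(H k).2.1]; nlinarith [(H k).1 x, norm_nonneg (F k x)]
  have a4 : ∀ k, A (k + 1) ⊆ A k := fun k x hx => ⟨hx.1, by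
    have := norm_sub_norm_le 1 (F k x)
    rw [norm_one, norm_sub_rev] at this
    linarith [a3 k x, (a2 _ x hx).1, g2 (k + 1)]⟩
  have a5 : ∀ k, ∀ p ∈ P (k + 1), ‖p‖ < 1 ∧ ‖F k p - 1‖ = 1 := fun k p hp => by
    have := (H k).2.2.2.1 p hp
    exact ⟨this.1, by rw [this.2 p this.1.le (by simp [inner_self_eq_norm_sq_to_K])]; simp⟩
  have k1 : ⋂ k, A k ⊆ sphere 0 1 := fun x hx => by
    have e := Set.mem_iInter.1 hx
    have := ge_of_tendsto' (g4.const_mul 2) fun k => (a2 k x (e k)).2.1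
    exact mem_sphere_zero_iff_norm.2 ((mem_closedBall_zero_iff.1 (e 0).1).antisymm (by linarith))
  refine ⟨⋂ k, A k, (isCompact_sphere 0 1).of_isClosed_subset (isClosed_iInter a1) k1, k1, ?_,
    fun z hz hz' => ?_, fun ε hε => ?_⟩
  · rintro ⟨f, f1, f2, f3⟩
    obtain ⟨C, c0, hC⟩ := ((isCompact_closedBall 0 1).image_of_continuousOn f1).isBounded.exists_pos_norm_le
    have hZ : Z fun x => f x / C := ⟨by simpa only [div_eq_mul_inv] using f2.mul_const _, fun x hx => ⟨div_ne_zero (fun e =>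
      (mem_ball_zero_iff.1 hx).ne (mem_sphere_zero_iff_norm.1
        (k1 (f3.subset ⟨ball_subset_closedBall hx, e⟩)))) (by simp [c0.ne']), by
      rw [norm_div, norm_real, Real.norm_of_nonneg c0.le, div_le_one c0]
      exact hC _ ⟨x, ball_subset_closedBall hx, rfl⟩⟩⟩
    obtain ⟨s, s1, s2⟩ := ((((Real.continuousAt_const_rpow (b := 0) (norm_ne_zero_iff.2 (hZ.2 0
      (by simp)).1)).eventually (le_mem_nhds (a := 3 / 4) (by norm_num))).filter_mono
      nhdsWithin_le_nhds).and (self_mem_nhdsWithin (s := Set.Ioi 0))).exists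
    have e1 : ∀ k, ∃ p ∈ P k, 1 / 2 + 2 * γ k ≤ ‖f p / C‖ ^ s := fun k => by
      induction k with
      | zero => exact ⟨0, p0, le_trans (by norm_num [γ]) s1⟩
      | succ k ih =>
        obtain ⟨p, e1, e2⟩ := ih
        obtain ⟨c, e3, e4⟩ := (H k).2.2.1 p e1 _ hZ s s2.le
        exact ⟨c, e3, by linarith [g1 k]⟩
    have e2 : IsClosed {x ∈ closedBall 0 1 | 1 / 2 ≤ ‖f x / C‖ ^ s} := isClosed_closedBall.isClosed_le
      continuousOn_const ((f1.div_const _).norm.rpow_const fun _ _ => .inr s2.le)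
    obtain ⟨x, hx⟩ := IsCompact.nonempty_iInter_of_sequence_nonempty_isCompact_isClosed
      (fun k => A k ∩ {x ∈ closedBall 0 1 | 1 / 2 ≤ ‖f x / C‖ ^ s})
      (fun k => Set.inter_subset_inter_left _ (a4 k)) (fun k => by
        obtain ⟨p, e3, e4⟩ := e1 (k + 1)
        have := mem_closedBall_zero_iff.2 (a5 k p e3).1.le
        exact ⟨p, ⟨this, by rw [(a5 k p e3).2]; norm_num⟩, this, by linarith [g0 (k + 1)]⟩)
      ((isCompact_closedBall 0 1).of_isClosed_subset ((a1 0).inter e2) fun x hx => hx.1.1)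
      fun k => (a1 k).inter e2
    rw [← Set.iInter_inter] at hx
    have := hx.2.2
    rw [(f3.superset hx.1).2, zero_div, norm_zero, Real.zero_rpow s2.ne'] at this
    norm_num at this
  · obtain ⟨m, hm⟩ : ∃ m, ‖F m z - 1‖ < 1 / 2 := by
      by_contra! e; exact hz' (Set.mem_iInter.2 fun k => ⟨hz, e k⟩)
    set Q := fun j x => ∏ i ∈ range (j + 1), F (m + i) x
    have q1 : ∀ j x, ‖Q j x‖ ≤ h (m + j + 1) x := fun j x => by
      induction j with
      | zero => simpa [Q] using a3 m x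
      | succ j ih =>
        simp only [Q] at ih ⊢
        rw [prod_range_succ, norm_mul, (H _).2.1]
        exact mul_le_mul_of_nonneg_right (ih.trans (le_add_of_nonneg_right zero_le_one)) (norm_nonneg _)
    have q2 : ∀ j x, ‖x‖ ≤ 1 → ‖Q (j + 1) x - Q j x‖ ≤ γ j := fun j x hx => by
      have e : Q (j + 1) x - Q j x = Q j x * (F (m + j + 1) x - 1) := by
        simp only [Q, prod_range_succ _ (j + 1)]; ring_nf
      refine (e ▸ norm_mul_le_of_le (r₁ := _) (by linarith [q1 j x, w0 (m + j + 1) x]) le_rfl).trans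
        ((h1 _ x hx).trans ?_)
      unfold γ; gcongr ?_ / _
      exact pow_le_pow_of_le_one (by norm_num) (by norm_num) (by omega)
    have q4 : ∀ j x, ‖x‖ ≤ 1 → DifferentiableAt ℂ (Q j) x := fun j x hx =>
      (HasFDerivAt.finsetProd fun i _ => ((H _).2.2.2.2 x hx).1.hasFDerivAt).differentiableAt
    have q3 : ∀ j x, ‖x‖ ≤ 1 → DifferentiableAt ℂ (fun x => Q (j + 1) x - Q j x) x := fun j x hx =>
      .sub (q4 _ x hx) (q4 _ x hx)
    refine ⟨fun x => F m x + ∑' j, (Q (j + 1) x - Q j x), (H m).2.2.2.cont.add (continuousOn_tsum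
      (fun j x hx => (q3 j x (mem_closedBall_zero_iff.1 hx)).continuousAt.continuousWithinAt)
      g3.summable fun j x hx => q2 j x (mem_closedBall_zero_iff.1 hx)), .add
      (fun x hx => ((H m).2.2.2.2 x (mem_ball_zero_iff.1 hx).le).1.differentiableWithinAt)
      (diff_tsum g3.summable (fun j x hx => (q3 j x (mem_ball_zero_iff.1 hx).le).differentiableWithinAt)
        fun j x hx => q2 j x (mem_ball_zero_iff.1 hx).le), fun x hx => ?_, fun e => ?_⟩
    · have e := Set.mem_iInter.1 hx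
      have e1 := (Summable.of_norm_bounded g3.summable fun j => q2 j x
        (mem_closedBall_zero_iff.1 (e 0).1)).hasSum.tendsto_sum_nat.const_add (F m x)
      simp only [sum_range_sub (Q · x), show Q 0 x = F m x by simp [Q], add_sub_cancel] at e1
      refine tendsto_nhds_unique e1 (squeeze_zero_norm (fun j => (q1 j x).trans (a2 _ x (e _)).1) ?_)
      simpa [add_comm m, add_assoc] using ((tendsto_add_atTop_iff_nat (m + 1)).2 g4).const_mul 2
    · have e1 := tsum_of_norm_bounded g3 fun j => q2 j z (mem_closedBall_zero_iff.1 hz)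
      have e2 := norm_sub_norm_le 1 (F m z)
      rw [← neg_eq_of_add_eq_zero_right e, norm_neg] at e1
      rw [norm_one, norm_sub_rev] at e2
      linarith
  · obtain ⟨k, hk⟩ := (g4.eventually (ge_mem_nhds hε)).exists
    refine ⟨P (k + 1), fun p hp => ⟨?_, (a5 k p hp).1.le⟩, fun x hx => by_contra fun e => ?_⟩
    · have := h1 k p (a5 k p hp).1.le
      rw [(a5 k p hp).2] at this
      linarith [(H k).1 p, w0 k p]
    · push Not at e
      have : 1 ≤ W (k + 1) (P (k + 1)) x := Finset.one_le_prod fun p hp =>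
        (one_le_div (g0 _)).2 (by linarith [e p hp, g1 k, g0 k])
      linarith [(a2 _ x (Set.mem_iInter.1 hx (k + 1))).2.2, g2 (k + 1)]

end Pool.Agent.H.MP_0c4bbf_an
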